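import Pool.Agent.H54.CTX.Kin
import Pool.Agent.H13.K2S.OcDefs

/-!
# Labels of planks inside tubes

`Fam.glb g a c lam i0 z` (definitions in `H13/K2S/OcDefs`) is the label: window `T1 g` of the time
(`g = J` is the exact time), frame `z`, position at the beginning of the window (chart coordinate
to `a` digits, the coordinates relative to the frame to `a + lam` digits), velocity (`c` and
`c + lam` digits), side information. `Fam.qlb w q = Fam.glb w (q + w) q` is the label of the plank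
of length `2 ^ (-w)` in the tube of width `2 ^ (-q)`. The fractional parts `Fam.gu`, `Fam.gd` are
the coordinates of the line inside the box.
-/

set_option autoImplicit false

namespace Pool.KA

open Finset Real
open Pool.Agent.H49.Ent Pool.Agent.H32.Dense Pool.STK

variable {m J : ℕ}

/-- The cell of the position at the beginning of the window. -/
noncomputable def Fam.gps (F : Fam m J) (g a lam : ℕ) (i0 : Fin m) (z : F.Ω → Fin m → ℝ)
    (ω : F.Ω) : Fin m → ℤ := fl a (pco lam i0 (z ω) (F.x1 g ω))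

/-- The cell of the velocity. -/
noncomputable def Fam.gvl (F : Fam m J) (c lam : ℕ) (i0 : Fin m) (z : F.Ω → Fin m → ℝ)
    (ω : F.Ω) : Fin m → ℤ := fl c (pco lam i0 (z ω) (F.d ω))

/-- The time in the window, in units of the window. -/
noncomputable def Fam.wt (F : Fam m J) (w : ℕ) (ω : F.Ω) : ℝ :=
  ((F.T ω % 2 ^ (J - w) : ℕ) : ℝ) / 2 ^ (J - w)

namespace Lab

theorem gps_eq (F : Fam m J) (g a lam : ℕ) (i0 : Fin m) (z : F.Ω → Fin m → ℝ) (ω : F.Ω)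
    (i : Fin m) : 2 ^ a * pco lam i0 (z ω) (F.x1 g ω) i =
      F.gps g a lam i0 z ω i + F.gu g a lam i0 z ω i :=
  (Int.floor_add_fract _).symm

theorem gvl_eq (F : Fam m J) (c lam : ℕ) (i0 : Fin m) (z : F.Ω → Fin m → ℝ) (ω : F.Ω)
    (i : Fin m) : 2 ^ c * pco lam i0 (z ω) (F.d ω) i =
      F.gvl c lam i0 z ω i + F.gd c lam i0 z ω i :=
  (Int.floor_add_fract _).symm

theorem gu_mem (F : Fam m J) (g a lam : ℕ) (i0 : Fin m) (z : F.Ω → Fin m → ℝ) (ω : F.Ω)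
    (i : Fin m) : 0 ≤ F.gu g a lam i0 z ω i ∧ F.gu g a lam i0 z ω i < 1 :=
  ⟨Int.fract_nonneg _, Int.fract_lt_one _⟩

theorem gd_mem (F : Fam m J) (c lam : ℕ) (i0 : Fin m) (z : F.Ω → Fin m → ℝ) (ω : F.Ω)
    (i : Fin m) : 0 ≤ F.gd c lam i0 z ω i ∧ F.gd c lam i0 z ω i < 1 :=
  ⟨Int.fract_nonneg _, Int.fract_lt_one _⟩

theorem wt_mem (F : Fam m J) (w : ℕ) (ω : F.Ω) : 0 ≤ F.wt w ω ∧ F.wt w ω < 1 := by
  unfold Fam.wt
  constructor
  · positivity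
  · rw [div_lt_one (by positivity)]
    have : F.T ω % 2 ^ (J - w) < 2 ^ (J - w) := Nat.mod_lt _ (by positivity)
    exact_mod_cast this

/-- The plank of helper64 is the case of the whole ball. -/
theorem qlb_zero (F : Fam m J) (w lam : ℕ) (i0 : Fin m) (z : F.Ω → Fin m → ℝ) :
    F.qlb w 0 lam i0 z = F.plab w lam i0 z := by
  funext ω
  unfold Fam.qlb Fam.glb Fam.plab Fam.pcl Fam.pvl
  rw [Nat.zero_add]

theorem glb_eq (F : Fam m J) (g a c lam : ℕ) (i0 : Fin m) (z : F.Ω → Fin m → ℝ) (ω : F.Ω) :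
    F.glb g a c lam i0 z ω =
      (((F.T1 g ω, z ω), (F.gps g a lam i0 z ω, F.gvl c lam i0 z ω)), F.Z ω) := rfl

theorem qlb_eq (F : Fam m J) (w q lam : ℕ) (i0 : Fin m) (z : F.Ω → Fin m → ℝ) (ω : F.Ω) :
    F.qlb w q lam i0 z ω = F.glb w (q + w) q lam i0 z ω := rfl

/-! ### Components of equal labels -/

theorem glb_ext {F : Fam m J} {g a c lam : ℕ} {i0 : Fin m} {z : F.Ω → Fin m → ℝ} {ω ω' : F.Ω}
    (h : F.glb g a c lam i0 z ω = F.glb g a c lam i0 z ω') :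
    F.T1 g ω = F.T1 g ω' ∧ z ω = z ω' ∧ F.gps g a lam i0 z ω = F.gps g a lam i0 z ω' ∧
      F.gvl c lam i0 z ω = F.gvl c lam i0 z ω' ∧ F.Z ω = F.Z ω' := by
  have h4 := Prod.ext_iff.mp h
  have h5 := Prod.ext_iff.mp h4.1
  exact ⟨(Prod.ext_iff.mp h5.1).1, (Prod.ext_iff.mp h5.1).2, (Prod.ext_iff.mp h5.2).1,
    (Prod.ext_iff.mp h5.2).2, h4.2⟩

/-- The label is a function of the line, the window, the frame and the side information. -/
theorem glb_det (F : Fam m J) {g a c lam : ℕ} {i0 : Fin m} {z : F.Ω → Fin m → ℝ} {ω ω' : F.Ω}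
    (hl : F.l ω = F.l ω') (hT : F.T1 g ω = F.T1 g ω') (hz : z ω = z ω') (hZ : F.Z ω = F.Z ω') :
    F.glb g a c lam i0 z ω = F.glb g a c lam i0 z ω' ∧
      F.gu g a lam i0 z ω = F.gu g a lam i0 z ω' ∧ F.gd c lam i0 z ω = F.gd c lam i0 z ω' := by
  have hu : F.u ω = F.u ω' := (Prod.ext_iff.mp hl).1
  have hd : F.d ω = F.d ω' := (Prod.ext_iff.mp hl).2
  have hx : F.x1 g ω = F.x1 g ω' := by
    funext i
    unfold Fam.x1
    rw [hu, hd, hT]
  refine ⟨?_, ?_, ?_⟩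
  · unfold Fam.glb
    rw [hT, hz, hx, hd, hZ]
  · funext i
    unfold Fam.gu
    rw [hz, hx]
  · funext i
    unfold Fam.gd
    rw [hz, hd]

/-- The line and the window are functions of the label and the line in the box. -/
theorem line_det (F : Fam m J) {g a c lam : ℕ} {i0 : Fin m} {z : F.Ω → Fin m → ℝ} {ω ω' : F.Ω}
    (hb : F.glb g a c lam i0 z ω = F.glb g a c lam i0 z ω')
    (hu : F.gu g a lam i0 z ω = F.gu g a lam i0 z ω')
    (hd : F.gd c lam i0 z ω = F.gd c lam i0 z ω') :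
    F.l ω = F.l ω' ∧ F.T1 g ω = F.T1 g ω' ∧ z ω = z ω' ∧ F.Z ω = F.Z ω' := by
  obtain ⟨h1, h2, h3, h4, h5⟩ := glb_ext hb
  have hD : F.d ω = F.d ω' := by
    refine Plk.pco_inj lam i0 (z ω) _ _ fun i => ?_
    have k1 := gvl_eq F c lam i0 z ω i
    have k2 := gvl_eq F c lam i0 z ω' i
    rw [h4, hd, ← k2, ← h2] at k1
    exact mul_left_cancel₀ (by positivity) k1
  have hx : F.x1 g ω = F.x1 g ω' := by
    refine Plk.pco_inj lam i0 (z ω) _ _ fun i => ?_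
    have k1 := gps_eq F g a lam i0 z ω i
    have k2 := gps_eq F g a lam i0 z ω' i
    rw [h3, hu, ← k2, ← h2] at k1
    exact mul_left_cancel₀ (by positivity) k1
  have hU : F.u ω = F.u ω' := by
    funext i
    have k1 := congrFun hx i
    unfold Fam.x1 at k1
    rw [h1, hD] at k1
    linarith only [k1]
  exact ⟨Prod.ext hU hD, h1, h2, h5⟩

/-! ### Digits of the coordinates in the box -/

theorem floor_fract (X : ℕ) (x : ℝ) : ⌊(2 : ℝ) ^ X * Int.fract x⌋ =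
    ⌊(2 : ℝ) ^ X * x⌋ - 2 ^ X * ⌊x⌋ := by
  have h1 : (2 : ℝ) ^ X * Int.fract x = 2 ^ X * x - ((2 ^ X * ⌊x⌋ : ℤ) : ℝ) := by
    unfold Int.fract
    push_cast
    ring
  rw [h1, Int.floor_sub_intCast]

theorem fl_gu (F : Fam m J) (g a lam X : ℕ) (i0 : Fin m) (z : F.Ω → Fin m → ℝ) (ω : F.Ω)
    (i : Fin m) : fl X (F.gu g a lam i0 z ω) i =
      F.gps g (a + X) lam i0 z ω i - 2 ^ X * F.gps g a lam i0 z ω i := by
  change ⌊(2 : ℝ) ^ X * Int.fract (2 ^ a * pco lam i0 (z ω) (F.x1 g ω) i)⌋ =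
    ⌊(2 : ℝ) ^ (a + X) * pco lam i0 (z ω) (F.x1 g ω) i⌋ -
      2 ^ X * ⌊(2 : ℝ) ^ a * pco lam i0 (z ω) (F.x1 g ω) i⌋
  rw [floor_fract, pow_add]
  congr 2
  ring

theorem fl_gd (F : Fam m J) (c lam X : ℕ) (i0 : Fin m) (z : F.Ω → Fin m → ℝ) (ω : F.Ω)
    (i : Fin m) : fl X (F.gd c lam i0 z ω) i =
      F.gvl (c + X) lam i0 z ω i - 2 ^ X * F.gvl c lam i0 z ω i := by
  change ⌊(2 : ℝ) ^ X * Int.fract (2 ^ c * pco lam i0 (z ω) (F.d ω) i)⌋ =
    ⌊(2 : ℝ) ^ (c + X) * pco lam i0 (z ω) (F.d ω) i⌋ -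
      2 ^ X * ⌊(2 : ℝ) ^ c * pco lam i0 (z ω) (F.d ω) i⌋
  rw [floor_fract, pow_add]
  congr 2
  ring

/-! ### Times -/

theorem x1_J (F : Fam m J) (ω : F.Ω) : F.x1 J ω = F.x ω := by
  funext i
  unfold Fam.x1 Fam.x Fam.t Fam.T1
  rw [Nat.sub_self, pow_zero, Nat.div_one]

theorem T1_J (F : Fam m J) (ω : F.Ω) : F.T1 J ω = F.T ω := by
  unfold Fam.T1
  rw [Nat.sub_self, pow_zero, Nat.div_one]

theorem t_eq (F : Fam m J) {w : ℕ} (hw : w ≤ J) (ω : F.Ω) :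
    F.t ω = (F.T1 w ω : ℝ) / 2 ^ w + F.wt w ω * (2 ^ w)⁻¹ :=
  Win.time_split J w (F.T ω) hw

theorem tw_eq (F : Fam m J) {w : ℕ} (hw : w ≤ J) (ω : F.Ω) : F.tw w ω = F.wt w ω := by
  unfold Fam.tw
  rw [t_eq F hw ω]
  field_simp
  ring

theorem T1_le (F : Fam m J) {g g' : ℕ} (h : g ≤ g') (hg' : g' ≤ J) (ω : F.Ω) :
    (F.T1 g ω : ℝ) / 2 ^ g ≤ (F.T1 g' ω : ℝ) / 2 ^ g' ∧
      (F.T1 g' ω : ℝ) / 2 ^ g' ≤ (F.T1 g ω : ℝ) / 2 ^ g + 1 / 2 ^ g := by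
  obtain ⟨K, rfl⟩ := Nat.exists_eq_add_of_le h
  have h1 := Pool.KSAT.T1_div F hg' ω
  have h2 := Nat.div_add_mod (F.T1 (g + K) ω) (2 ^ K)
  rw [← h1] at h2
  have h3 : F.T1 (g + K) ω % 2 ^ K < 2 ^ K := Nat.mod_lt _ (by positivity)
  have h4 : (F.T1 (g + K) ω : ℝ) = 2 ^ K * F.T1 g ω + (F.T1 (g + K) ω % 2 ^ K : ℕ) := by
    exact_mod_cast h2.symm
  have h5 : ((F.T1 (g + K) ω % 2 ^ K : ℕ) : ℝ) ≤ 2 ^ K := by exact_mod_cast h3.le
  have h6 : (0 : ℝ) ≤ ((F.T1 (g + K) ω % 2 ^ K : ℕ) : ℝ) := Nat.cast_nonneg _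
  have e1 : (F.T1 g ω : ℝ) / 2 ^ g = 2 ^ K * F.T1 g ω / 2 ^ (g + K) := by
    rw [pow_add]
    field_simp
  have e2 : (1 : ℝ) / 2 ^ g = 2 ^ K / 2 ^ (g + K) := by
    rw [pow_add]
    field_simp
  rw [e1, e2, h4, ← add_div]
  constructor
  · exact div_le_div_of_nonneg_right (by linarith only) (by positivity)
  · exact div_le_div_of_nonneg_right (by linarith only [h5]) (by positivity)

/-- The beginnings of two windows which contain the time. -/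
theorem time_near (F : Fam m J) {g g' v : ℕ} (hg : g ≤ J) (hg' : g' ≤ J) (hv : v = min g g')
    (ω : F.Ω) : |(F.T1 g' ω : ℝ) / 2 ^ g' - (F.T1 g ω : ℝ) / 2 ^ g| ≤ 1 / 2 ^ v := by
  rcases le_total g g' with h | h
  · rw [min_eq_left h] at hv
    subst hv
    have := T1_le F h hg' ω
    rw [abs_le]
    have h2 : (0 : ℝ) ≤ 1 / 2 ^ v := by positivity
    constructor <;> linarith only [this, this.1, this.2]
  · rw [min_eq_right h] at hv
    subst hv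
    have := T1_le F h hg ω
    rw [abs_le]
    have h2 : (0 : ℝ) ≤ 1 / 2 ^ v := by positivity
    constructor <;> linarith only [this, this.1, this.2]

/-! ### Two lines with the same label -/

theorem xa_eq (F : Fam m J) (g : ℕ) (s : ℝ) (ω : F.Ω) : F.xa s ω =
    fun i => F.x1 g ω i + (s - (F.T1 g ω : ℝ) / 2 ^ g) * F.d ω i := by
  funext i
  unfold Fam.xa Fam.x1
  ring

/-- Change of frame and precision. -/
theorem pco_change {lam lam2 : ℕ} {i0 : Fin m} (z f x : Fin m → ℝ) {j : Fin m} (hj : j ≠ i0) :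
    pco lam2 i0 f x j = 2 ^ lam2 / 2 ^ lam * pco lam i0 z x j -
      2 ^ lam2 * (f j - z j) * x i0 := by
  unfold pco
  rw [if_neg hj, if_neg hj]
  have : (2 : ℝ) ^ lam ≠ 0 := by positivity
  field_simp
  ring

theorem pco_sub (lam : ℕ) (i0 : Fin m) (z x y : Fin m → ℝ) (i : Fin m) :
    pco lam i0 z (fun k => x k - y k) i = pco lam i0 z x i - pco lam i0 z y i := by
  unfold pco
  split_ifs with h
  · rfl
  · ring

section near

variable {F : Fam m J} {g a c lam v k : ℕ} {i0 : Fin m} {z : F.Ω → Fin m → ℝ} {ω ω' : F.Ω}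
  {s : ℝ}

theorem pow_div_le {x y : ℕ} (h : x ≤ y) : (2 : ℝ) ^ x / 2 ^ y ≤ 1 := by
  rw [div_le_one (by positivity)]
  exact pow_le_pow_right₀ (by norm_num) h

theorem dpos (h : F.glb g a c lam i0 z ω = F.glb g a c lam i0 z ω') (i : Fin m) :
    |pco lam i0 (z ω) (F.x1 g ω) i - pco lam i0 (z ω) (F.x1 g ω') i| ≤ 1 / 2 ^ a := by
  obtain ⟨h1, h2, h3, h4, h5⟩ := glb_ext h
  have k1 := Plk.abs_sub_lt_of_floor (congrFun h3 i :
    ⌊2 ^ a * pco lam i0 (z ω) (F.x1 g ω) i⌋ = ⌊2 ^ a * pco lam i0 (z ω') (F.x1 g ω') i⌋)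
  rw [← h2, ← mul_sub, abs_mul, abs_of_pos (by positivity : (0 : ℝ) < 2 ^ a)] at k1
  rw [le_div_iff₀ (by positivity), mul_comm]
  exact k1

theorem dvel (h : F.glb g a c lam i0 z ω = F.glb g a c lam i0 z ω') (i : Fin m) :
    |pco lam i0 (z ω) (F.d ω) i - pco lam i0 (z ω) (F.d ω') i| ≤ 1 / 2 ^ c := by
  obtain ⟨h1, h2, h3, h4, h5⟩ := glb_ext h
  have k1 := Plk.abs_sub_lt_of_floor (congrFun h4 i :
    ⌊2 ^ c * pco lam i0 (z ω) (F.d ω) i⌋ = ⌊2 ^ c * pco lam i0 (z ω') (F.d ω') i⌋)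
  rw [← h2, ← mul_sub, abs_mul, abs_of_pos (by positivity : (0 : ℝ) < 2 ^ c)] at k1
  rw [le_div_iff₀ (by positivity), mul_comm]
  exact k1

/-- Positions at the time `s`, in the frame of the label. -/
theorem dxa (h : F.glb g a c lam i0 z ω = F.glb g a c lam i0 z ω')
    (hs : |s - (F.T1 g ω : ℝ) / 2 ^ g| ≤ 1 / 2 ^ v) (hka : k ≤ a) (hkc : k ≤ c + v)
    (i : Fin m) :
    |pco lam i0 (z ω) (F.xa s ω) i - pco lam i0 (z ω) (F.xa s ω') i| ≤ 2 / 2 ^ k := by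
  obtain ⟨h1, h2, h3, h4, h5⟩ := glb_ext h
  rw [xa_eq F g s ω, xa_eq F g s ω', Plk.pco_add_mul, Plk.pco_add_mul, ← h1]
  have k1 := dpos h i
  have k2 := dvel h i
  have e1 : pco lam i0 (z ω) (F.x1 g ω) i + (s - (F.T1 g ω : ℝ) / 2 ^ g) *
      pco lam i0 (z ω) (F.d ω) i - (pco lam i0 (z ω) (F.x1 g ω') i +
      (s - (F.T1 g ω : ℝ) / 2 ^ g) * pco lam i0 (z ω) (F.d ω') i) =
      (pco lam i0 (z ω) (F.x1 g ω) i - pco lam i0 (z ω) (F.x1 g ω') i) +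
      (s - (F.T1 g ω : ℝ) / 2 ^ g) * (pco lam i0 (z ω) (F.d ω) i -
        pco lam i0 (z ω) (F.d ω') i) := by ring
  rw [e1]
  refine (abs_add_le _ _).trans ?_
  rw [abs_mul]
  have k3 : |s - (F.T1 g ω : ℝ) / 2 ^ g| * |pco lam i0 (z ω) (F.d ω) i -
      pco lam i0 (z ω) (F.d ω') i| ≤ 1 / 2 ^ v * (1 / 2 ^ c) :=
    mul_le_mul hs k2 (abs_nonneg _) (by positivity)
  have k4 : (1 : ℝ) / 2 ^ v * (1 / 2 ^ c) ≤ 1 / 2 ^ k := by
    rw [div_mul_div_comm, one_mul, ← pow_add]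
    exact one_div_le_one_div_of_le (by positivity)
      (pow_le_pow_right₀ (by norm_num) (by omega))
  have k5 : (1 : ℝ) / 2 ^ a ≤ 1 / 2 ^ k :=
    one_div_le_one_div_of_le (by positivity) (pow_le_pow_right₀ (by norm_num) hka)
  have k6 : (2 : ℝ) / 2 ^ k = 1 / 2 ^ k + 1 / 2 ^ k := by ring
  rw [k6]
  linarith only [k1, k3, k4, k5]

/-- The chart coordinate of the position at the time `s`. -/
theorem near_pos_W (h : F.glb g a c lam i0 z ω = F.glb g a c lam i0 z ω')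
    (hs : |s - (F.T1 g ω : ℝ) / 2 ^ g| ≤ 1 / 2 ^ v) (hka : k ≤ a) (hkc : k ≤ c + v) {a2 : ℕ}
    (h2 : a2 ≤ k) : |2 ^ a2 * F.xa s ω i0 - 2 ^ a2 * F.xa s ω' i0| ≤ 2 := by
  have k1 := dxa h hs hka hkc i0
  rw [Kin.pco_chart, Kin.pco_chart] at k1
  rw [← mul_sub, abs_mul, abs_of_pos (by positivity : (0 : ℝ) < 2 ^ a2)]
  calc (2 : ℝ) ^ a2 * |F.xa s ω i0 - F.xa s ω' i0| ≤ 2 ^ a2 * (2 / 2 ^ k) :=
        mul_le_mul_of_nonneg_left k1 (by positivity)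
    _ = 2 * (2 ^ a2 / 2 ^ k) := by ring
    _ ≤ 2 * 1 := mul_le_mul_of_nonneg_left (pow_div_le h2) (by norm_num)
    _ = 2 := by ring

/-- The other coordinates of the position at the time `s`, in a near frame. -/
theorem near_pos_N (h : F.glb g a c lam i0 z ω = F.glb g a c lam i0 z ω')
    (hs : |s - (F.T1 g ω : ℝ) / 2 ^ g| ≤ 1 / 2 ^ v) (hka : k ≤ a) (hkc : k ≤ c + v)
    {a2 lam2 l : ℕ} {C : ℝ} (hC : 0 ≤ C) {f : Fin m → ℝ} {j : Fin m} (hj : j ≠ i0)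
    (hf : 2 ^ l * |f j - z ω j| ≤ C) (h2 : a2 + lam2 ≤ k + lam) (h3 : a2 + lam2 ≤ k + l) :
    |2 ^ a2 * pco lam2 i0 f (F.xa s ω) j - 2 ^ a2 * pco lam2 i0 f (F.xa s ω') j| ≤
      2 + 2 * C := by
  have k1 := dxa h hs hka hkc j
  have k2 := dxa h hs hka hkc i0
  rw [Kin.pco_chart, Kin.pco_chart] at k2
  rw [pco_change (lam := lam) (z ω) f (F.xa s ω) hj,
    pco_change (lam := lam) (z ω) f (F.xa s ω') hj]
  have e1 : (2 : ℝ) ^ a2 * (2 ^ lam2 / 2 ^ lam * pco lam i0 (z ω) (F.xa s ω) j -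
      2 ^ lam2 * (f j - z ω j) * F.xa s ω i0) -
      2 ^ a2 * (2 ^ lam2 / 2 ^ lam * pco lam i0 (z ω) (F.xa s ω') j -
      2 ^ lam2 * (f j - z ω j) * F.xa s ω' i0) =
      (2 ^ (a2 + lam2) / 2 ^ lam) * (pco lam i0 (z ω) (F.xa s ω) j -
        pco lam i0 (z ω) (F.xa s ω') j) -
      (2 ^ (a2 + lam2) / 2 ^ l) * ((2 ^ l * (f j - z ω j)) * (F.xa s ω i0 - F.xa s ω' i0)) := by
    rw [pow_add]
    have : (2 : ℝ) ^ l ≠ 0 := by positivity
    have : (2 : ℝ) ^ lam ≠ 0 := by positivity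
    field_simp
    ring
  rw [e1]
  refine (abs_sub _ _).trans ?_
  rw [abs_mul, abs_mul, abs_mul, abs_mul, abs_of_pos (by positivity : (0 : ℝ) < 2 ^ l),
    abs_of_pos (by positivity : (0 : ℝ) < 2 ^ (a2 + lam2) / 2 ^ lam),
    abs_of_pos (by positivity : (0 : ℝ) < 2 ^ (a2 + lam2) / 2 ^ l)]
  have c1 : (2 : ℝ) ^ (a2 + lam2) / 2 ^ lam * |pco lam i0 (z ω) (F.xa s ω) j -
      pco lam i0 (z ω) (F.xa s ω') j| ≤ 2 := by
    calc _ ≤ (2 : ℝ) ^ (a2 + lam2) / 2 ^ lam * (2 / 2 ^ k) :=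
          mul_le_mul_of_nonneg_left k1 (by positivity)
      _ = 2 * (2 ^ (a2 + lam2) / 2 ^ (k + lam)) := by rw [pow_add 2 k]; field_simp
      _ ≤ 2 * 1 := mul_le_mul_of_nonneg_left (pow_div_le h2) (by norm_num)
      _ = 2 := by ring
  have c2 : (2 : ℝ) ^ (a2 + lam2) / 2 ^ l * (2 ^ l * |f j - z ω j| *
      |F.xa s ω i0 - F.xa s ω' i0|) ≤ 2 * C := by
    calc _ ≤ (2 : ℝ) ^ (a2 + lam2) / 2 ^ l * (C * (2 / 2 ^ k)) :=
          mul_le_mul_of_nonneg_left (mul_le_mul hf k2 (abs_nonneg _) hC) (by positivity)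
      _ = 2 * C * (2 ^ (a2 + lam2) / 2 ^ (k + l)) := by rw [pow_add 2 k]; field_simp
      _ ≤ 2 * C * 1 := mul_le_mul_of_nonneg_left (pow_div_le h3) (by linarith only [hC])
      _ = 2 * C := by ring
  linarith only [c1, c2]

theorem near_vel_W (h : F.glb g a c lam i0 z ω = F.glb g a c lam i0 z ω') {c2 : ℕ}
    (h2 : c2 ≤ c) : |2 ^ c2 * F.d ω i0 - 2 ^ c2 * F.d ω' i0| ≤ 1 := by
  have k1 := dvel h i0
  rw [Kin.pco_chart, Kin.pco_chart] at k1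
  rw [← mul_sub, abs_mul, abs_of_pos (by positivity : (0 : ℝ) < 2 ^ c2)]
  calc (2 : ℝ) ^ c2 * |F.d ω i0 - F.d ω' i0| ≤ 2 ^ c2 * (1 / 2 ^ c) :=
        mul_le_mul_of_nonneg_left k1 (by positivity)
    _ = 2 ^ c2 / 2 ^ c := by ring
    _ ≤ 1 := pow_div_le h2

theorem near_vel_N (h : F.glb g a c lam i0 z ω = F.glb g a c lam i0 z ω')
    {c2 lam2 l : ℕ} {C : ℝ} (hC : 0 ≤ C) {f : Fin m → ℝ} {j : Fin m} (hj : j ≠ i0)
    (hf : 2 ^ l * |f j - z ω j| ≤ C) (h2 : c2 + lam2 ≤ c + lam) (h3 : c2 + lam2 ≤ c + l) :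
    |2 ^ c2 * pco lam2 i0 f (F.d ω) j - 2 ^ c2 * pco lam2 i0 f (F.d ω') j| ≤ 1 + C := by
  have k1 := dvel h j
  have k2 := dvel h i0
  rw [Kin.pco_chart, Kin.pco_chart] at k2
  rw [pco_change (lam := lam) (z ω) f (F.d ω) hj, pco_change (lam := lam) (z ω) f (F.d ω') hj]
  have e1 : (2 : ℝ) ^ c2 * (2 ^ lam2 / 2 ^ lam * pco lam i0 (z ω) (F.d ω) j -
      2 ^ lam2 * (f j - z ω j) * F.d ω i0) -
      2 ^ c2 * (2 ^ lam2 / 2 ^ lam * pco lam i0 (z ω) (F.d ω') j -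
      2 ^ lam2 * (f j - z ω j) * F.d ω' i0) =
      (2 ^ (c2 + lam2) / 2 ^ lam) * (pco lam i0 (z ω) (F.d ω) j -
        pco lam i0 (z ω) (F.d ω') j) -
      (2 ^ (c2 + lam2) / 2 ^ l) * ((2 ^ l * (f j - z ω j)) * (F.d ω i0 - F.d ω' i0)) := by
    rw [pow_add]
    have : (2 : ℝ) ^ l ≠ 0 := by positivity
    have : (2 : ℝ) ^ lam ≠ 0 := by positivity
    field_simp
    ring
  rw [e1]
  refine (abs_sub _ _).trans ?_
  rw [abs_mul, abs_mul, abs_mul, abs_mul, abs_of_pos (by positivity : (0 : ℝ) < 2 ^ l),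
    abs_of_pos (by positivity : (0 : ℝ) < 2 ^ (c2 + lam2) / 2 ^ lam),
    abs_of_pos (by positivity : (0 : ℝ) < 2 ^ (c2 + lam2) / 2 ^ l)]
  have c1 : (2 : ℝ) ^ (c2 + lam2) / 2 ^ lam * |pco lam i0 (z ω) (F.d ω) j -
      pco lam i0 (z ω) (F.d ω') j| ≤ 1 := by
    calc _ ≤ (2 : ℝ) ^ (c2 + lam2) / 2 ^ lam * (1 / 2 ^ c) :=
          mul_le_mul_of_nonneg_left k1 (by positivity)
      _ = 2 ^ (c2 + lam2) / 2 ^ (c + lam) := by rw [pow_add 2 c]; field_simp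
      _ ≤ 1 := pow_div_le h2
  have c3 : (2 : ℝ) ^ (c2 + lam2) / 2 ^ l * (2 ^ l * |f j - z ω j| *
      |F.d ω i0 - F.d ω' i0|) ≤ C := by
    calc _ ≤ (2 : ℝ) ^ (c2 + lam2) / 2 ^ l * (C * (1 / 2 ^ c)) :=
          mul_le_mul_of_nonneg_left (mul_le_mul hf k2 (abs_nonneg _) hC) (by positivity)
      _ = C * (2 ^ (c2 + lam2) / 2 ^ (c + l)) := by rw [pow_add 2 c]; field_simp
      _ ≤ C * 1 := mul_le_mul_of_nonneg_left (pow_div_le h3) hC
      _ = C := by ring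
  linarith only [c1, c3]

/-- Position cells at the time `s`. -/
theorem cell_near (h : F.glb g a c lam i0 z ω = F.glb g a c lam i0 z ω')
    (hs : |s - (F.T1 g ω : ℝ) / 2 ^ g| ≤ 1 / 2 ^ v) (hka : k ≤ a) (hkc : k ≤ c + v)
    {a2 lam2 l : ℕ} {C : ℝ} (hC : 0 ≤ C) {f : Fin m → ℝ}
    (hf : ∀ j, 2 ^ l * |f j - z ω j| ≤ C) (h1 : a2 ≤ k) (h2 : a2 + lam2 ≤ k + lam)
    (h3 : a2 + lam2 ≤ k + l) (i : Fin m) :
    |((fl a2 (pco lam2 i0 f (F.xa s ω)) i - fl a2 (pco lam2 i0 f (F.xa s ω')) i : ℤ) : ℝ)| ≤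
      2 * C + 3 := by
  have key : |2 ^ a2 * pco lam2 i0 f (F.xa s ω) i - 2 ^ a2 * pco lam2 i0 f (F.xa s ω') i| ≤
      2 * C + 2 := by
    by_cases hi : i = i0
    · subst hi
      rw [Kin.pco_chart, Kin.pco_chart]
      have := near_pos_W h hs hka hkc h1
      linarith only [hC, this]
    · have := near_pos_N h hs hka hkc hC hi (hf i) h2 h3
      linarith only [this]
  have := Plk.floor_sub_lt key
  refine le_trans this ?_
  linarith only

/-- Velocity cells. -/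
theorem vel_near (h : F.glb g a c lam i0 z ω = F.glb g a c lam i0 z ω')
    {c2 lam2 l : ℕ} {C : ℝ} (hC : 0 ≤ C) {f : Fin m → ℝ}
    (hf : ∀ j, 2 ^ l * |f j - z ω j| ≤ C) (h1 : c2 ≤ c) (h2 : c2 + lam2 ≤ c + lam)
    (h3 : c2 + lam2 ≤ c + l) (i : Fin m) :
    |((fl c2 (pco lam2 i0 f (F.d ω)) i - fl c2 (pco lam2 i0 f (F.d ω')) i : ℤ) : ℝ)| ≤
      2 * C + 3 := by
  have key : |2 ^ c2 * pco lam2 i0 f (F.d ω) i - 2 ^ c2 * pco lam2 i0 f (F.d ω') i| ≤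
      2 * C + 2 := by
    by_cases hi : i = i0
    · subst hi
      rw [Kin.pco_chart, Kin.pco_chart]
      have := near_vel_W h h1
      linarith only [hC, this]
    · have := near_vel_N h hC hi (hf i) h2 h3
      linarith only [hC, this]
  have := Plk.floor_sub_lt key
  refine le_trans this ?_
  linarith only

end near

/-! ### Conditional entropies of labels -/

section ent

variable {F : Fam m J} {p : F.Ω → ℝ}

theorem CH_fin_const {S : Type} (hp : IsLaw p) (X : F.Ω → Fin m → ℤ)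
    (W : F.Ω → S) {c : ℝ} (hX : ∀ ω ω', 0 < p ω → 0 < p ω' → W ω = W ω' →
      ∀ k, |((X ω k - X ω' k : ℤ) : ℝ)| ≤ c) : CH p X W ≤ m * Real.log (2 * c + 1) :=
  Plk.CH_vec_const hp X W hX

/-- One integer. -/
theorem CH_int_const {S : Type} (hp : IsLaw p) (X : F.Ω → ℤ)
    (W : F.Ω → S) {c : ℝ} (hX : ∀ ω ω', 0 < p ω → 0 < p ω' → W ω = W ω' →
      |((X ω - X ω' : ℤ) : ℝ)| ≤ c) : CH p X W ≤ Real.log (2 * c + 1) := by
  have h1 := Plk.CH_vec_const (m := 1) hp (fun ω _ => X ω) W (c := c)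
    (fun ω ω' h1 h2 h3 _ => hX ω ω' h1 h2 h3)
  have h2 : CH p X W ≤ CH p (fun ω (_ : Fin 1) => X ω) W :=
    CH_mono_left hp.nonneg fun ω ω' _ _ h => congrFun (Prod.ext_iff.mp h).1 0
  have h3 : ((1 : ℕ) : ℝ) * Real.log (2 * c + 1) = Real.log (2 * c + 1) := by
    rw [Nat.cast_one, one_mul]
  linarith only [h1, h2, h3]

/-- **Change of the label.** `W` determines the label `(g, a, c, lam, z)`, the window `T1 g2` and
the frame `f`. -/
theorem CH_glb {S : Type} (hp : IsLaw p) {g a c lam g2 a2 c2 lam2 l k : ℕ} {i0 : Fin m}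
    {z f : F.Ω → Fin m → ℝ} {C : ℝ} (hg : g ≤ J) (hg2 : g2 ≤ J) (hC : 0 ≤ C)
    (hf : ∀ ω, 0 < p ω → ∀ j, 2 ^ l * |f ω j - z ω j| ≤ C)
    (hka : k ≤ a) (hkc : k ≤ c + min g g2) (h1 : a2 ≤ k) (h2 : a2 + lam2 ≤ k + lam)
    (h3 : a2 + lam2 ≤ k + l) (h4 : c2 ≤ c) (h5 : c2 + lam2 ≤ c + lam) (h6 : c2 + lam2 ≤ c + l)
    (W : F.Ω → S) (hW : ∀ ω ω', 0 < p ω → 0 < p ω' → W ω = W ω' →
      F.glb g a c lam i0 z ω = F.glb g a c lam i0 z ω' ∧ F.T1 g2 ω = F.T1 g2 ω' ∧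
        f ω = f ω') :
    CH p (F.glb g2 a2 c2 lam2 i0 f) W ≤ 2 * (m * Real.log (4 * C + 7)) := by
  have h0 := hp.nonneg
  have e7 : 2 * (2 * C + 3) + 1 = 4 * C + 7 := by ring
  have k1 : CH p (F.gps g2 a2 lam2 i0 f) W ≤ m * Real.log (4 * C + 7) := by
    rw [← e7]
    refine CH_fin_const hp _ W ?_
    intro ω ω' hω hω' h i
    obtain ⟨b1, b2, b3⟩ := hW ω ω' hω hω' h
    have hs := time_near F hg hg2 rfl ω
    have key := cell_near (s := (F.T1 g2 ω : ℝ) / 2 ^ g2) (f := f ω) b1 hs hka hkc hC (hf ω hω)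
      h1 h2 h3 i
    have c1 : F.xa ((F.T1 g2 ω : ℝ) / 2 ^ g2) ω = F.x1 g2 ω := rfl
    have c2 : F.xa ((F.T1 g2 ω : ℝ) / 2 ^ g2) ω' = F.x1 g2 ω' := by rw [b2]; rfl
    rw [c1, c2] at key
    unfold Fam.gps
    rw [← b3]
    exact key
  have k2 : CH p (F.gvl c2 lam2 i0 f) W ≤ m * Real.log (4 * C + 7) := by
    rw [← e7]
    refine CH_fin_const hp _ W ?_
    intro ω ω' hω hω' h i
    obtain ⟨b1, b2, b3⟩ := hW ω ω' hω hω' h
    have key := vel_near (f := f ω) b1 hC (hf ω hω) h4 h5 h6 i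
    unfold Fam.gvl
    rw [← b3]
    exact key
  have k3 : CH p (F.glb g2 a2 c2 lam2 i0 f) W ≤
      CH p (fun ω => (F.gps g2 a2 lam2 i0 f ω, F.gvl c2 lam2 i0 f ω)) W := by
    have d1 := CH_le_add h0 (F.glb g2 a2 c2 lam2 i0 f) (fun ω => (F.gps g2 a2 lam2 i0 f ω,
      F.gvl c2 lam2 i0 f ω)) W
    have d2 : CH p (F.glb g2 a2 c2 lam2 i0 f) (fun ω => ((F.gps g2 a2 lam2 i0 f ω,
        F.gvl c2 lam2 i0 f ω), W ω)) = 0 := by
      refine CH_eq_zero h0 ?_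
      intro ω ω' hω hω' h
      have e1 := Prod.ext_iff.mp h
      have e2 := Prod.ext_iff.mp e1.1
      obtain ⟨b1, b2, b3⟩ := hW ω ω' hω hω' e1.2
      have f1 : F.gps g2 a2 lam2 i0 f ω = F.gps g2 a2 lam2 i0 f ω' := e2.1
      have f2 : F.gvl c2 lam2 i0 f ω = F.gvl c2 lam2 i0 f ω' := e2.2
      obtain ⟨_, _, _, _, b4⟩ := glb_ext b1
      rw [glb_eq, glb_eq, b2, b3, f1, f2, b4]
    linarith only [d1, d2]
  have k4 := CH_subadd h0 (F.gps g2 a2 lam2 i0 f) (F.gvl c2 lam2 i0 f) W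
  linarith only [k1, k2, k3, k4]

/-- Nestedness for fixed rows: `q + w + lam = q' + w' + lam'`, shorter window `w ≥ w'`,
`lam' ≤ lam`. -/
theorem CH_qlb_rows {S : Type} (hp : IsLaw p) {w q lam w' q' lam' : ℕ} {i0 : Fin m}
    {z z' : F.Ω → Fin m → ℝ} {C : ℝ} (hw : w ≤ J) (hww : w' ≤ w) (hll : lam' ≤ lam)
    (hP : q + w + lam ≤ q' + w' + lam') (hC : 0 ≤ C)
    (hf : ∀ ω, 0 < p ω → ∀ j, 2 ^ lam' * |z ω j - z' ω j| ≤ C)
    (W : F.Ω → S) (hW : ∀ ω ω', 0 < p ω → 0 < p ω' → W ω = W ω' →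
      F.qlb w' q' lam' i0 z' ω = F.qlb w' q' lam' i0 z' ω' ∧ F.T1 w ω = F.T1 w ω' ∧
        z ω = z ω') :
    CH p (F.qlb w q lam i0 z) W ≤ 2 * (m * Real.log (4 * C + 7)) := by
  have e1 : min w' w = w' := min_eq_left hww
  exact CH_glb (l := lam') (k := q' + w') hp (hww.trans hw) hw hC hf le_rfl
    (by rw [e1]) (by omega) (by omega) (by omega) (by omega) (by omega) (by omega) W hW

/-- Nestedness for a fixed velocity block: `q = q'`, longer window `w ≤ w'`, `lam ≤ lam'`. -/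
theorem CH_qlb_vel {S : Type} (hp : IsLaw p) {w q lam w' lam' : ℕ} {i0 : Fin m}
    {z z' : F.Ω → Fin m → ℝ} {C : ℝ} (hw' : w' ≤ J) (hww : w ≤ w') (hll : lam ≤ lam')
    (hC : 0 ≤ C) (hf : ∀ ω, 0 < p ω → ∀ j, 2 ^ lam * |z ω j - z' ω j| ≤ C)
    (W : F.Ω → S) (hW : ∀ ω ω', 0 < p ω → 0 < p ω' → W ω = W ω' →
      F.qlb w' q lam' i0 z' ω = F.qlb w' q lam' i0 z' ω' ∧ z ω = z ω') :
    CH p (F.qlb w q lam i0 z) W ≤ 2 * (m * Real.log (4 * C + 7)) := by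
  have e1 : min w' w = w := min_eq_right hww
  refine CH_glb (g := w') (a := q + w') (c := q) (lam := lam') (l := lam) (k := q + w) hp hw'
    (hww.trans hw') hC hf (by omega) (by rw [e1]) le_rfl (by omega) le_rfl le_rfl (by omega)
    le_rfl W ?_
  intro ω ω' hω hω' h
  obtain ⟨h1, h2⟩ := hW ω ω' hω hω' h
  refine ⟨h1, ?_, h2⟩
  obtain ⟨K, rfl⟩ := Nat.exists_eq_add_of_le hww
  rw [Pool.KSAT.T1_div F hw' ω, Pool.KSAT.T1_div F hw' ω', (glb_ext h1).1]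

/-- The frames are a function of the label; equal labels give equal windows of every length. -/
theorem T1_of_glb {g a c lam w : ℕ} {i0 : Fin m} {z : F.Ω → Fin m → ℝ} {ω ω' : F.Ω}
    (hw : w ≤ g) (hg : g ≤ J) (h : F.glb g a c lam i0 z ω = F.glb g a c lam i0 z ω') :
    F.T1 w ω = F.T1 w ω' := by
  obtain ⟨K, rfl⟩ := Nat.exists_eq_add_of_le hw
  rw [Pool.KSAT.T1_div F hg ω, Pool.KSAT.T1_div F hg ω', (glb_ext h).1]

/-- Every window is a function of the exact time. -/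
theorem T1_of_T {w : ℕ} {ω ω' : F.Ω} (h : F.T ω = F.T ω') : F.T1 w ω = F.T1 w ω' := by
  unfold Fam.T1
  rw [h]

end ent

/-! ### The position at the exact time and the rows in the moving frame -/

/-- The position at the exact time in the coordinates of the box. -/
theorem pos_eq (F : Fam m J) {w : ℕ} (hw : w ≤ J) (q lam : ℕ) (i0 : Fin m)
    (z : F.Ω → Fin m → ℝ) (ω : F.Ω) (i : Fin m) :
    2 ^ (q + w) * pco lam i0 (z ω) (F.x ω) i =
      (F.gu w (q + w) lam i0 z ω i + F.wt w ω * F.gd q lam i0 z ω i) +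
      (F.gps w (q + w) lam i0 z ω i + F.wt w ω * F.gvl q lam i0 z ω i) := by
  have h1 : F.x ω = fun j => F.x1 w ω j + (F.wt w ω * (2 ^ w)⁻¹) * F.d ω j := by
    funext j
    unfold Fam.x Fam.x1
    rw [t_eq F hw ω]
    ring
  have h2 := gps_eq F w (q + w) lam i0 z ω i
  have h3 := gvl_eq F q lam i0 z ω i
  have h4 : (2 : ℝ) ^ (q + w) * (F.wt w ω * (2 ^ w)⁻¹ * pco lam i0 (z ω) (F.d ω) i) =
      F.wt w ω * (2 ^ q * pco lam i0 (z ω) (F.d ω) i) := by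
    rw [pow_add]
    have : (2 : ℝ) ^ w ≠ 0 := by positivity
    field_simp
  rw [h1, Plk.pco_add_mul, mul_add, h2, h4, h3]
  ring

/-- The row variable of the theorem in one context: coordinate `j` in the frame
`z + 2 ^ (-lam) S`, relative to the corner of the box. -/
noncomputable def _root_.Pool.KA.Fam.nuv (F : Fam m J) (w q lam : ℕ) (i0 : Fin m)
    (z : F.Ω → Fin m → ℝ) (S : F.Ω → Fin m → ℝ) (ω : F.Ω) (j : Fin m) : ℝ :=
  F.gu w (q + w) lam i0 z ω j + F.wt w ω * F.gd q lam i0 z ω j -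
    S ω j * (F.gu w (q + w) lam i0 z ω i0 + F.wt w ω * F.gd q lam i0 z ω i0)

/-- The part of the position which is a function of the label, the time and `S`. -/
noncomputable def _root_.Pool.KA.Fam.nuk (F : Fam m J) (w q lam : ℕ) (i0 : Fin m)
    (z : F.Ω → Fin m → ℝ) (S : F.Ω → Fin m → ℝ) (ω : F.Ω) (j : Fin m) : ℝ :=
  F.gps w (q + w) lam i0 z ω j + F.wt w ω * F.gvl q lam i0 z ω j -
    S ω j * (F.gps w (q + w) lam i0 z ω i0 + F.wt w ω * F.gvl q lam i0 z ω i0)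

/-- The row variable is the position in the moving frame up to a function of the label, the time
and `S`. -/
theorem nuv_eq (F : Fam m J) {w : ℕ} (hw : w ≤ J) (q lam : ℕ) (i0 : Fin m)
    (z S f : F.Ω → Fin m → ℝ) (ω : F.Ω) {j : Fin m} (hj : j ≠ i0)
    (hf : S ω j = 2 ^ lam * (f ω j - z ω j)) :
    F.nuv w q lam i0 z S ω j =
      2 ^ (q + w) * pco lam i0 (f ω) (F.x ω) j - F.nuk w q lam i0 z S ω j := by
  have h1 := pos_eq F hw q lam i0 z ω j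
  have h2 := pos_eq F hw q lam i0 z ω i0
  rw [Kin.pco_chart] at h2
  have h3 := Kin.pco_frame lam i0 (z ω) (f ω) (F.x ω) j
  rw [if_neg hj] at h3
  unfold Fam.nuv Fam.nuk
  rw [h3, hf]
  linear_combination -h1 + (2 ^ lam * (f ω j - z ω j)) * h2

/-- Equal labels, times and `S`: the known parts agree. -/
theorem nuk_det (F : Fam m J) {w q lam : ℕ} {i0 : Fin m} {z S : F.Ω → Fin m → ℝ} {ω ω' : F.Ω}
    (hb : F.qlb w q lam i0 z ω = F.qlb w q lam i0 z ω') (hT : F.T ω = F.T ω')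
    (hS : S ω = S ω') : F.nuk w q lam i0 z S ω = F.nuk w q lam i0 z S ω' := by
  obtain ⟨h1, h2, h3, h4, h5⟩ := glb_ext hb
  funext j
  unfold Fam.nuk Fam.wt
  rw [h3, h4, hT, hS]

/-- Digits of the row variable and digits of the position in the moving frame: differences of two
places with the same label, time, `S` and `f`. -/
theorem nuv_sub (F : Fam m J) {w : ℕ} (hw : w ≤ J) {q lam : ℕ} {i0 : Fin m}
    {z S f : F.Ω → Fin m → ℝ} {ω ω' : F.Ω} {j : Fin m} (hj : j ≠ i0)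
    (hf : S ω j = 2 ^ lam * (f ω j - z ω j)) (hf' : S ω' j = 2 ^ lam * (f ω' j - z ω' j))
    (hb : F.qlb w q lam i0 z ω = F.qlb w q lam i0 z ω') (hT : F.T ω = F.T ω')
    (hS : S ω = S ω') :
    F.nuv w q lam i0 z S ω j - F.nuv w q lam i0 z S ω' j =
      2 ^ (q + w) * pco lam i0 (f ω) (F.x ω) j - 2 ^ (q + w) * pco lam i0 (f ω') (F.x ω') j := by
  rw [nuv_eq F hw q lam i0 z S f ω hj hf, nuv_eq F hw q lam i0 z S f ω' hj hf',
    nuk_det F hb hT hS]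
  ring

/-- Change of the context for fixed rows `q + w + lam = q' + w' + lam'`: two places with the same
finer label `(w', q')`, the same coarser label `(w, q)`, time, and frames `f`, `f'` (known to
`2 ^ (-(lam' + X))` relative to each other). The row variables differ by the same amount up to
`2 * C` units of the digit `X`. -/
theorem nuv_change (F : Fam m J) {w q lam w' q' lam' X : ℕ} (hw : w ≤ J) (hw' : w' ≤ J)
    {i0 : Fin m} {z S f z' S' f' : F.Ω → Fin m → ℝ} {ω ω' : F.Ω} {j : Fin m} (hj : j ≠ i0)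
    (hP : q + w + lam = q' + w' + lam')
    (hf : ∀ o, o = ω ∨ o = ω' → S o j = 2 ^ lam * (f o j - z o j))
    (hf' : ∀ o, o = ω ∨ o = ω' → S' o j = 2 ^ lam' * (f' o j - z' o j))
    (hb : F.qlb w q lam i0 z ω = F.qlb w q lam i0 z ω')
    (hb' : F.qlb w' q' lam' i0 z' ω = F.qlb w' q' lam' i0 z' ω') (hT : F.T ω = F.T ω')
    (hS : S ω = S ω') (hS' : S' ω = S' ω') {C : ℝ} (hC : 2 ^ (lam' + X) * |f ω j - f' ω j| ≤ C) :
    |2 ^ X * (F.nuv w q lam i0 z S ω j - F.nuv w q lam i0 z S ω' j) -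
      2 ^ X * (F.nuv w' q' lam' i0 z' S' ω j - F.nuv w' q' lam' i0 z' S' ω' j)| ≤ 2 * C := by
  obtain ⟨_, hz, _, _, _⟩ := glb_ext hb
  obtain ⟨_, hz', _, _, _⟩ := glb_ext hb'
  have n1 := nuv_sub F hw (f := f) hj (hf ω (Or.inl rfl)) (hf ω' (Or.inr rfl)) hb hT hS
  have n2 := nuv_sub F hw' (f := f') hj (hf' ω (Or.inl rfl)) (hf' ω' (Or.inr rfl)) hb' hT hS'
  have ff : f ω j = f ω' j := by
    have a1 := hf ω (Or.inl rfl)
    have a2 := hf ω' (Or.inr rfl)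
    rw [← hS, ← hz, a1] at a2
    have : (2 : ℝ) ^ lam ≠ 0 := by positivity
    have := mul_left_cancel₀ this a2
    linarith only [this]
  have ff' : f' ω j = f' ω' j := by
    have a1 := hf' ω (Or.inl rfl)
    have a2 := hf' ω' (Or.inr rfl)
    rw [← hS', ← hz', a1] at a2
    have : (2 : ℝ) ^ lam' ≠ 0 := by positivity
    have := mul_left_cancel₀ this a2
    linarith only [this]
  -- the chart coordinate
  have hs : |F.t ω - (F.T1 w' ω : ℝ) / 2 ^ w'| ≤ 1 / 2 ^ w' := by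
    have := time_near F hw' le_rfl (v := w') (min_eq_left hw').symm ω
    rw [T1_J] at this
    exact this
  have hx := near_pos_W (F := F) (s := F.t ω) (k := q' + w') (a2 := q' + w') hb' hs le_rfl
    le_rfl le_rfl
  have x1 : F.xa (F.t ω) ω = F.x ω := rfl
  have x2 : F.xa (F.t ω) ω' = F.x ω' := by
    have : F.t ω = F.t ω' := by
      unfold Fam.t
      rw [hT]
    rw [this]
    rfl
  rw [x1, x2, ← mul_sub, abs_mul, abs_of_pos (by positivity : (0 : ℝ) < 2 ^ (q' + w'))] at hx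
  rw [n1, n2]
  have e1 : 2 ^ X * (2 ^ (q + w) * pco lam i0 (f ω) (F.x ω) j -
      2 ^ (q + w) * pco lam i0 (f ω') (F.x ω') j) -
      2 ^ X * (2 ^ (q' + w') * pco lam' i0 (f' ω) (F.x ω) j -
      2 ^ (q' + w') * pco lam' i0 (f' ω') (F.x ω') j) =
      -((2 ^ (lam' + X) * (f ω j - f' ω j)) * (2 ^ (q' + w') * (F.x ω i0 - F.x ω' i0))) := by
    have e2 : (2 : ℝ) ^ (q + w) * 2 ^ lam = 2 ^ (q' + w') * 2 ^ lam' := by
      rw [← pow_add, ← pow_add, hP]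
    unfold pco
    rw [if_neg hj, if_neg hj, if_neg hj, if_neg hj, ← ff, ← ff', pow_add 2 lam' X]
    linear_combination (2 ^ X * ((F.x ω j - f ω j * F.x ω i0) -
      (F.x ω' j - f ω j * F.x ω' i0))) * e2
  rw [e1, abs_neg, abs_mul, abs_mul, abs_mul, abs_of_pos (by positivity : (0 : ℝ) < 2 ^ (lam' + X)),
    abs_of_pos (by positivity : (0 : ℝ) < 2 ^ (q' + w'))]
  have hC0 : 0 ≤ C := le_trans (by positivity) hC
  calc _ ≤ C * 2 := mul_le_mul hC hx (by positivity) hC0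
    _ = 2 * C := by ring

end Lab

end Pool.KA
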