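import Pool.Agent.H54.K2S.Lab
import Pool.Agent.H13.K2S.Skel

/-!
# Labels of planks inside tubes: exact points, balls, frames
-/

set_option autoImplicit false

namespace Pool.KA

open Finset Real
open Pool.Agent.H49.Ent Pool.Agent.H32.Dense Pool.STK

variable {m J : ℕ}

/-- The cell `B(P, r)`, `P = r + lam`, at the exact point: frame `z`, chart coordinate to `r`
digits, the coordinates relative to the frame to `r + lam` digits. -/
noncomputable def Fam.bpt (F : Fam m J) (r lam : ℕ) (i0 : Fin m) (z : F.Ω → Fin m → ℝ)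
    (ω : F.Ω) : (Fin m → ℝ) × (Fin m → ℤ) := (z ω, fl r (pco lam i0 (z ω) (F.x ω)))

namespace Lab

section pts

variable {F : Fam m J} {p : F.Ω → ℝ}

theorem gps_J (F : Fam m J) (r lam : ℕ) (i0 : Fin m) (z : F.Ω → Fin m → ℝ) (ω : F.Ω) :
    F.gps J r lam i0 z ω = fl r (pco lam i0 (z ω) (F.x ω)) := by
  unfold Fam.gps
  rw [x1_J]

/-- Change of the cell at a point: real form. -/
theorem pt_near {a lam a2 lam2 l : ℕ} {i0 : Fin m} {z f x y : Fin m → ℝ} {C : ℝ} (hC : 0 ≤ C)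
    (h : fl a (pco lam i0 z x) = fl a (pco lam i0 z y)) (hf : ∀ j, 2 ^ l * |f j - z j| ≤ C)
    (h1 : a2 ≤ a) (h2 : a2 + lam2 ≤ a + lam) (h3 : a2 + lam2 ≤ a + l) (i : Fin m) :
    |((fl a2 (pco lam2 i0 f x) i - fl a2 (pco lam2 i0 f y) i : ℤ) : ℝ)| ≤ C + 2 := by
  have k0 := fun i => (Plk.abs_sub_lt_of_floor (congrFun h i :
    ⌊2 ^ a * pco lam i0 z x i⌋ = ⌊2 ^ a * pco lam i0 z y i⌋))
  have kd : ∀ i, |pco lam i0 z x i - pco lam i0 z y i| ≤ 1 / 2 ^ a := by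
    intro i
    have := k0 i
    rw [← mul_sub, abs_mul, abs_of_pos (by positivity : (0 : ℝ) < 2 ^ a)] at this
    rw [le_div_iff₀ (by positivity), mul_comm]
    exact this
  have kW := kd i0
  rw [Kin.pco_chart, Kin.pco_chart] at kW
  have key : |2 ^ a2 * pco lam2 i0 f x i - 2 ^ a2 * pco lam2 i0 f y i| ≤ C + 1 := by
    by_cases hi : i = i0
    · subst hi
      rw [Kin.pco_chart, Kin.pco_chart, ← mul_sub, abs_mul,
        abs_of_pos (by positivity : (0 : ℝ) < 2 ^ a2)]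
      calc (2 : ℝ) ^ a2 * |x i - y i| ≤ 2 ^ a2 * (1 / 2 ^ a) :=
            mul_le_mul_of_nonneg_left kW (by positivity)
        _ = 2 ^ a2 / 2 ^ a := by ring
        _ ≤ 1 := pow_div_le h1
        _ ≤ C + 1 := by linarith
    · rw [pco_change (lam := lam) z f x hi, pco_change (lam := lam) z f y hi]
      have e1 : (2 : ℝ) ^ a2 * (2 ^ lam2 / 2 ^ lam * pco lam i0 z x i -
          2 ^ lam2 * (f i - z i) * x i0) -
          2 ^ a2 * (2 ^ lam2 / 2 ^ lam * pco lam i0 z y i - 2 ^ lam2 * (f i - z i) * y i0) =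
          (2 ^ (a2 + lam2) / 2 ^ lam) * (pco lam i0 z x i - pco lam i0 z y i) -
          (2 ^ (a2 + lam2) / 2 ^ l) * ((2 ^ l * (f i - z i)) * (x i0 - y i0)) := by
        rw [pow_add]
        have : (2 : ℝ) ^ l ≠ 0 := by positivity
        have : (2 : ℝ) ^ lam ≠ 0 := by positivity
        field_simp
        ring
      rw [e1]
      refine (abs_sub _ _).trans ?_
      rw [abs_mul, abs_mul, abs_mul, abs_mul, abs_of_pos (by positivity : (0 : ℝ) < 2 ^ l),
        abs_of_pos (by positivity : (0 : ℝ) < 2 ^ (a2 + lam2) / 2 ^ lam),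
        abs_of_pos (by positivity : (0 : ℝ) < 2 ^ (a2 + lam2) / 2 ^ l)]
      have c1 : (2 : ℝ) ^ (a2 + lam2) / 2 ^ lam * |pco lam i0 z x i - pco lam i0 z y i| ≤ 1 := by
        calc _ ≤ (2 : ℝ) ^ (a2 + lam2) / 2 ^ lam * (1 / 2 ^ a) :=
              mul_le_mul_of_nonneg_left (kd i) (by positivity)
          _ = 2 ^ (a2 + lam2) / 2 ^ (a + lam) := by rw [pow_add 2 a]; field_simp
          _ ≤ 1 := pow_div_le h2
      have c2 : (2 : ℝ) ^ (a2 + lam2) / 2 ^ l * (2 ^ l * |f i - z i| * |x i0 - y i0|) ≤ C := by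
        calc _ ≤ (2 : ℝ) ^ (a2 + lam2) / 2 ^ l * (C * (1 / 2 ^ a)) :=
              mul_le_mul_of_nonneg_left (mul_le_mul (hf i) kW (abs_nonneg _) hC) (by positivity)
          _ = C * (2 ^ (a2 + lam2) / 2 ^ (a + l)) := by rw [pow_add 2 a]; field_simp
          _ ≤ C * 1 := mul_le_mul_of_nonneg_left (pow_div_le h3) hC
          _ = C := by ring
      linarith
  refine (Plk.floor_sub_lt key).trans ?_
  linarith

/-- Change of the cell at the exact point. -/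
theorem CH_bpt {S : Type} (hp : IsLaw p) {a lam a2 lam2 l : ℕ} {i0 : Fin m}
    {z f : F.Ω → Fin m → ℝ} {C : ℝ} (hC : 0 ≤ C)
    (hf : ∀ ω, 0 < p ω → ∀ j, 2 ^ l * |f ω j - z ω j| ≤ C) (h1 : a2 ≤ a)
    (h2 : a2 + lam2 ≤ a + lam) (h3 : a2 + lam2 ≤ a + l) (W : F.Ω → S)
    (hW : ∀ ω ω', 0 < p ω → 0 < p ω' → W ω = W ω' →
      F.bpt a lam i0 z ω = F.bpt a lam i0 z ω' ∧ f ω = f ω') :
    CH p (F.bpt a2 lam2 i0 f) W ≤ m * Real.log (2 * C + 5) := by
  have e7 : 2 * (C + 2) + 1 = 2 * C + 5 := by ring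
  rw [← e7]
  have k1 : CH p (fun ω => fl a2 (pco lam2 i0 (f ω) (F.x ω))) W ≤
      m * Real.log (2 * (C + 2) + 1) := by
    refine CH_fin_const hp _ W ?_
    intro ω ω' hω hω' h i
    obtain ⟨b1, b2⟩ := hW ω ω' hω hω' h
    have b3 : z ω = z ω' := (Prod.ext_iff.mp b1).1
    have b4 : fl a (pco lam i0 (z ω) (F.x ω)) = fl a (pco lam i0 (z ω') (F.x ω')) :=
      (Prod.ext_iff.mp b1).2
    rw [← b3] at b4
    have := pt_near hC b4 (hf ω hω) h1 h2 h3 i
    rw [← b2]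
    exact this
  have k2 : CH p (F.bpt a2 lam2 i0 f) W ≤
      CH p (fun ω => fl a2 (pco lam2 i0 (f ω) (F.x ω))) W := by
    have d1 := CH_le_add hp.nonneg (F.bpt a2 lam2 i0 f)
      (fun ω => fl a2 (pco lam2 i0 (f ω) (F.x ω))) W
    have d2 : CH p (F.bpt a2 lam2 i0 f)
        (fun ω => (fl a2 (pco lam2 i0 (f ω) (F.x ω)), W ω)) = 0 := by
      refine CH_eq_zero hp.nonneg ?_
      intro ω ω' hω hω' h
      have e1 := Prod.ext_iff.mp h
      obtain ⟨b1, b2⟩ := hW ω ω' hω hω' e1.2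
      exact Prod.ext b2 e1.1
    linarith
  linarith

/-- The cells at the exact point are given by the balls. -/
theorem CH_bpt_of_X {S : Type} (hp : IsLaw p) {P a2 lam2 : ℕ} {i0 : Fin m}
    {f : F.Ω → Fin m → ℝ} {C : ℝ} (hf : ∀ ω, 0 < p ω → ∀ j, |f ω j| ≤ C)
    (hC : 0 ≤ C) (h2 : a2 + lam2 ≤ P) (W : F.Ω → S)
    (hW : ∀ ω ω', 0 < p ω → 0 < p ω' → W ω = W ω' → F.X P ω = F.X P ω' ∧ f ω = f ω') :
    CH p (F.bpt a2 lam2 i0 f) W ≤ m * Real.log (2 * C + 5) := by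
  refine CH_bpt (a := P) (lam := 0) (l := 0) (z := fun _ _ => 0) hp hC ?_ (by omega) (by omega)
    (by omega) W ?_
  · intro ω hω j
    rw [pow_zero, one_mul, sub_zero]
    exact hf ω hω j
  · intro ω ω' hω hω' h
    obtain ⟨b1, b2⟩ := hW ω ω' hω hω' h
    refine ⟨Prod.ext rfl ?_, b2⟩
    have e1 : ∀ o : F.Ω, pco 0 i0 (fun _ => (0 : ℝ)) (F.x o) = F.x o := by
      intro o
      funext i
      unfold pco
      split_ifs with hi
      · rw [hi]
      · ring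
    change fl P (pco 0 i0 (fun _ => (0 : ℝ)) (F.x ω)) = fl P (pco 0 i0 (fun _ => (0 : ℝ)) (F.x ω'))
    rw [e1, e1]
    exact b1

/-- The ball is given by the cell at the exact point, if its chart coordinate is known to the
radius of the ball. -/
theorem CH_X_of_bpt {S : Type} (hp : IsLaw p) {P a lam : ℕ} {i0 : Fin m}
    {z : F.Ω → Fin m → ℝ} {C : ℝ} (hz : ∀ ω, 0 < p ω → ∀ j, |z ω j| ≤ C)
    (hC : 0 ≤ C) (h1 : P ≤ a) (W : F.Ω → S)
    (hW : ∀ ω ω', 0 < p ω → 0 < p ω' → W ω = W ω' →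
      F.bpt a lam i0 z ω = F.bpt a lam i0 z ω') :
    CH p (F.X P) W ≤ m * Real.log (2 * C + 5) := by
  have k1 := CH_bpt (F := F) (a := a) (lam := lam) (l := 0) (a2 := P) (lam2 := 0) (i0 := i0)
    (z := z) (f := fun _ _ => 0) hp hC (fun ω hω j => by
      rw [pow_zero, one_mul, zero_sub, abs_neg]
      exact hz ω hω j) h1 (by omega) (by omega) W
    (fun ω ω' hω hω' h => ⟨hW ω ω' hω hω' h, rfl⟩)
  refine le_trans (CH_mono_left hp.nonneg ?_) k1
  intro ω ω' _ _ h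
  have h1 := Prod.ext_iff.mp (Prod.ext_iff.mp h).1
  have e1 : ∀ o : F.Ω, pco 0 i0 (fun _ => (0 : ℝ)) (F.x o) = F.x o := by
    intro o
    funext i
    unfold pco
    split_ifs with hi
    · rw [hi]
    · ring
  have h2 : fl P (pco 0 i0 (fun _ => (0 : ℝ)) (F.x ω)) =
    fl P (pco 0 i0 (fun _ => (0 : ℝ)) (F.x ω')) := h1.2
  rw [e1, e1] at h2
  exact h2

/-- The cell at the exact point is given by the label and the exact time. -/
theorem CH_bpt_of_qlb {S : Type} (hp : IsLaw p) {w q lam a2 lam2 l : ℕ} {i0 : Fin m}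
    {z f : F.Ω → Fin m → ℝ} {C : ℝ} (hw : w ≤ J) (hC : 0 ≤ C)
    (hf : ∀ ω, 0 < p ω → ∀ j, 2 ^ l * |f ω j - z ω j| ≤ C) (h1 : a2 ≤ q + w)
    (h2 : a2 + lam2 ≤ q + w + lam) (h3 : a2 + lam2 ≤ q + w + l) (W : F.Ω → S)
    (hW : ∀ ω ω', 0 < p ω → 0 < p ω' → W ω = W ω' →
      F.qlb w q lam i0 z ω = F.qlb w q lam i0 z ω' ∧ F.T ω = F.T ω' ∧ f ω = f ω') :
    CH p (F.bpt a2 lam2 i0 f) W ≤ m * Real.log (4 * C + 7) := by
  have e7 : 2 * (2 * C + 3) + 1 = 4 * C + 7 := by ring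
  rw [← e7]
  have k1 : CH p (fun ω => fl a2 (pco lam2 i0 (f ω) (F.x ω))) W ≤
      m * Real.log (2 * (2 * C + 3) + 1) := by
    refine CH_fin_const hp _ W ?_
    intro ω ω' hω hω' h i
    obtain ⟨b1, b2, b3⟩ := hW ω ω' hω hω' h
    have hs : |F.t ω - (F.T1 w ω : ℝ) / 2 ^ w| ≤ 1 / 2 ^ w := by
      have := time_near F hw le_rfl (v := w) (min_eq_left hw).symm ω
      rw [T1_J] at this
      exact this
    have key := cell_near (s := F.t ω) (k := q + w) b1 hs le_rfl le_rfl hC (hf ω hω) h1 h2 h3 i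
    have x1 : F.xa (F.t ω) ω = F.x ω := rfl
    have x2 : F.xa (F.t ω) ω' = F.x ω' := by
      have : F.t ω = F.t ω' := by
        unfold Fam.t
        rw [b2]
      rw [this]
      rfl
    rw [x1, x2] at key
    rw [← b3]
    exact key
  have k2 : CH p (F.bpt a2 lam2 i0 f) W ≤
      CH p (fun ω => fl a2 (pco lam2 i0 (f ω) (F.x ω))) W := by
    have d1 := CH_le_add hp.nonneg (F.bpt a2 lam2 i0 f)
      (fun ω => fl a2 (pco lam2 i0 (f ω) (F.x ω))) W
    have d2 : CH p (F.bpt a2 lam2 i0 f)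
        (fun ω => (fl a2 (pco lam2 i0 (f ω) (F.x ω)), W ω)) = 0 := by
      refine CH_eq_zero hp.nonneg ?_
      intro ω ω' hω hω' h
      have e1 := Prod.ext_iff.mp h
      obtain ⟨b1, b2, b3⟩ := hW ω ω' hω hω' e1.2
      exact Prod.ext b3 e1.1
    linarith
  linarith

/-! ### Labels from the exact point -/

/-- The label is given by the exact point, the time and the chart velocity, for fans near lines. -/
theorem CH_glb_of_pt {S : Type} (hp : IsLaw p) {g a c lam q l h : ℕ} {i0 : Fin m}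
    {z e n : F.Ω → Fin m → ℝ} {C : ℝ} (hg : g ≤ J) (hC : 0 ≤ C)
    (hfan : ∀ ω, 0 < p ω → ∀ j, |F.d ω j - e ω j * F.d ω i0 - n ω j| ≤ 1 / 2 ^ h)
    (hz : ∀ ω, 0 < p ω → ∀ j, |z ω j| ≤ C)
    (he : ∀ ω, 0 < p ω → ∀ j, 2 ^ l * |e ω j - z ω j| ≤ C)
    (h1 : a + lam ≤ J) (h2 : a ≤ q + g) (h3 : a + lam ≤ g + h) (h4 : a + lam ≤ g + q + l)
    (h5 : c ≤ q) (h6 : c + lam ≤ h) (h7 : c + lam ≤ q + l) (W : F.Ω → S)
    (hW : ∀ ω ω', 0 < p ω → 0 < p ω' → W ω = W ω' →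
      F.X J ω = F.X J ω' ∧ F.W ω = F.W ω' ∧ ⌊(2 : ℝ) ^ q * F.d ω i0⌋ = ⌊(2 : ℝ) ^ q * F.d ω' i0⌋ ∧
        z ω = z ω' ∧ e ω = e ω' ∧ n ω = n ω') :
    CH p (F.glb g a c lam i0 z) W ≤ 2 * (m * Real.log (4 * C + 9)) := by
  have h0 := hp.nonneg
  -- differences of two places
  have key : ∀ ω ω', 0 < p ω → 0 < p ω' → W ω = W ω' →
      (∀ i, |pco lam i0 (z ω) (F.x ω) i - pco lam i0 (z ω) (F.x ω') i| ≤
        if i = i0 then 1 / 2 ^ J else 2 ^ lam * ((1 + C) / 2 ^ J)) ∧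
      (∀ i, |pco lam i0 (z ω) (F.d ω) i - pco lam i0 (z ω) (F.d ω') i| ≤
        if i = i0 then 1 / 2 ^ q else 2 ^ lam * (2 / 2 ^ h + C / 2 ^ l / 2 ^ q)) := by
    intro ω ω' hω hω' hh
    obtain ⟨b1, b2, b3, b4, b5, b6⟩ := hW ω ω' hω hω' hh
    have kx : ∀ i, |F.x ω i - F.x ω' i| ≤ 1 / 2 ^ J := by
      intro i
      have := Plk.abs_sub_lt_of_floor (congrFun b1 i :
        ⌊2 ^ J * F.x ω i⌋ = ⌊2 ^ J * F.x ω' i⌋)
      rw [← mul_sub, abs_mul, abs_of_pos (by positivity : (0 : ℝ) < 2 ^ J)] at this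
      rw [le_div_iff₀ (by positivity), mul_comm]
      exact this
    have kd : |F.d ω i0 - F.d ω' i0| ≤ 1 / 2 ^ q := by
      have := Plk.abs_sub_lt_of_floor b3
      rw [← mul_sub, abs_mul, abs_of_pos (by positivity : (0 : ℝ) < 2 ^ q)] at this
      rw [le_div_iff₀ (by positivity), mul_comm]
      exact this
    constructor
    · intro i
      by_cases hi : i = i0
      · rw [if_pos hi, hi, Kin.pco_chart, Kin.pco_chart]
        exact kx i0
      · rw [if_neg hi]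
        unfold pco
        rw [if_neg hi, if_neg hi]
        have e1 : (2 : ℝ) ^ lam * (F.x ω i - z ω i * F.x ω i0) -
            2 ^ lam * (F.x ω' i - z ω i * F.x ω' i0) =
            2 ^ lam * ((F.x ω i - F.x ω' i) - z ω i * (F.x ω i0 - F.x ω' i0)) := by ring
        rw [e1, abs_mul, abs_of_pos (by positivity : (0 : ℝ) < 2 ^ lam)]
        refine mul_le_mul_of_nonneg_left ?_ (by positivity)
        refine (abs_sub _ _).trans ?_
        rw [abs_mul]
        have c1 : |z ω i| * |F.x ω i0 - F.x ω' i0| ≤ C * (1 / 2 ^ J) :=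
          mul_le_mul (hz ω hω i) (kx i0) (abs_nonneg _) hC
        have c2 := kx i
        have e2 : (1 + C) / 2 ^ J = 1 / 2 ^ J + C * (1 / 2 ^ J) := by ring
        linarith
    · intro i
      by_cases hi : i = i0
      · rw [if_pos hi, hi, Kin.pco_chart, Kin.pco_chart]
        exact kd
      · rw [if_neg hi]
        unfold pco
        rw [if_neg hi, if_neg hi]
        have f1 := hfan ω hω i
        have f2 := hfan ω' hω' i
        rw [← b5, ← b6] at f2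
        have e1 : (2 : ℝ) ^ lam * (F.d ω i - z ω i * F.d ω i0) -
            2 ^ lam * (F.d ω' i - z ω i * F.d ω' i0) =
            2 ^ lam * (((F.d ω i - e ω i * F.d ω i0 - n ω i) -
              (F.d ω' i - e ω i * F.d ω' i0 - n ω i)) +
              (e ω i - z ω i) * (F.d ω i0 - F.d ω' i0)) := by ring
        rw [e1, abs_mul, abs_of_pos (by positivity : (0 : ℝ) < 2 ^ lam)]
        refine mul_le_mul_of_nonneg_left ?_ (by positivity)
        refine (abs_add_le _ _).trans ?_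
        have c1 : |(F.d ω i - e ω i * F.d ω i0 - n ω i) -
            (F.d ω' i - e ω i * F.d ω' i0 - n ω i)| ≤ 2 / 2 ^ h := by
          refine (abs_sub _ _).trans ?_
          have e2 : (2 : ℝ) / 2 ^ h = 1 / 2 ^ h + 1 / 2 ^ h := by ring
          linarith
        have c2 : |(e ω i - z ω i) * (F.d ω i0 - F.d ω' i0)| ≤ C / 2 ^ l / 2 ^ q := by
          rw [abs_mul]
          have c3 : |e ω i - z ω i| ≤ C / 2 ^ l := by
            rw [le_div_iff₀ (by positivity), mul_comm]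
            exact he ω hω i
          calc |e ω i - z ω i| * |F.d ω i0 - F.d ω' i0| ≤ (C / 2 ^ l) * (1 / 2 ^ q) :=
                mul_le_mul c3 kd (abs_nonneg _) (by positivity)
            _ = C / 2 ^ l / 2 ^ q := by ring
        linarith
  have e7 : 2 * (2 * C + 4) + 1 = 4 * C + 9 := by ring
  have kv : CH p (F.gvl c lam i0 z) W ≤ m * Real.log (4 * C + 9) := by
    rw [← e7]
    refine CH_fin_const hp _ W ?_
    intro ω ω' hω hω' hh i
    obtain ⟨b1, b2, b3, b4, b5, b6⟩ := hW ω ω' hω hω' hh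
    have k1 := (key ω ω' hω hω' hh).2 i
    have k2 : |2 ^ c * pco lam i0 (z ω) (F.d ω) i - 2 ^ c * pco lam i0 (z ω) (F.d ω') i| ≤
        2 * C + 3 := by
      rw [← mul_sub, abs_mul, abs_of_pos (by positivity : (0 : ℝ) < 2 ^ c)]
      refine (mul_le_mul_of_nonneg_left k1 (by positivity)).trans ?_
      split_ifs with hi
      · calc (2 : ℝ) ^ c * (1 / 2 ^ q) = 2 ^ c / 2 ^ q := by ring
          _ ≤ 1 := pow_div_le h5
          _ ≤ 2 * C + 3 := by linarith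
      · calc (2 : ℝ) ^ c * (2 ^ lam * (2 / 2 ^ h + C / 2 ^ l / 2 ^ q)) =
            2 * (2 ^ (c + lam) / 2 ^ h) + C * (2 ^ (c + lam) / 2 ^ (q + l)) := by
              rw [pow_add 2 c, pow_add 2 q]; field_simp
          _ ≤ 2 * 1 + C * 1 := add_le_add
            (mul_le_mul_of_nonneg_left (pow_div_le h6) (by norm_num))
            (mul_le_mul_of_nonneg_left (pow_div_le h7) hC)
          _ ≤ 2 * C + 3 := by linarith
    have k3 := Plk.floor_sub_lt k2
    have k4 : |((F.gvl c lam i0 z ω i - F.gvl c lam i0 z ω' i : ℤ) : ℝ)| ≤ 2 * C + 3 + 1 := by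
      unfold Fam.gvl
      rw [← b4]
      exact k3
    linarith
  have kp : CH p (F.gps g a lam i0 z) W ≤ m * Real.log (4 * C + 9) := by
    rw [← e7]
    refine CH_fin_const hp _ W ?_
    intro ω ω' hω hω' hh i
    obtain ⟨b1, b2, b3, b4, b5, b6⟩ := hW ω ω' hω hω' hh
    have bT : F.T ω = F.T ω' := (Prod.ext_iff.mp b2).1
    obtain ⟨k0, k1⟩ := key ω ω' hω hω' hh
    have hT1 : F.T1 g ω = F.T1 g ω' := T1_of_T bT
    have ht : F.t ω = F.t ω' := by
      unfold Fam.t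
      rw [bT]
    obtain ⟨τ, hτ⟩ : ∃ τ : ℝ, τ = (F.T1 g ω : ℝ) / 2 ^ g - F.t ω := ⟨_, rfl⟩
    have hτ1 : |τ| ≤ 1 / 2 ^ g := by
      have := time_near F hg le_rfl (v := g) (min_eq_left hg).symm ω
      rw [T1_J] at this
      rw [hτ, abs_sub_comm]
      exact this
    have x1 : F.x1 g ω = fun k => F.x ω k + τ * F.d ω k := by
      funext k
      unfold Fam.x1 Fam.x
      rw [hτ]
      ring
    have x2 : F.x1 g ω' = fun k => F.x ω' k + τ * F.d ω' k := by
      funext k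
      unfold Fam.x1 Fam.x
      rw [hτ, ← hT1, ← ht]
      ring
    have k2 : |2 ^ a * pco lam i0 (z ω) (F.x1 g ω) i -
        2 ^ a * pco lam i0 (z ω) (F.x1 g ω') i| ≤ 2 * C + 3 := by
      rw [x1, x2, Plk.pco_add_mul, Plk.pco_add_mul]
      have e1 : (2 : ℝ) ^ a * (pco lam i0 (z ω) (F.x ω) i + τ * pco lam i0 (z ω) (F.d ω) i) -
          2 ^ a * (pco lam i0 (z ω) (F.x ω') i + τ * pco lam i0 (z ω) (F.d ω') i) =
          2 ^ a * (pco lam i0 (z ω) (F.x ω) i - pco lam i0 (z ω) (F.x ω') i) +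
          2 ^ a * (τ * (pco lam i0 (z ω) (F.d ω) i - pco lam i0 (z ω) (F.d ω') i)) := by ring
      rw [e1]
      refine (abs_add_le _ _).trans ?_
      rw [abs_mul, abs_mul, abs_mul, abs_of_pos (by positivity : (0 : ℝ) < 2 ^ a)]
      have g0 := k0 i
      have g1 := k1 i
      by_cases hi : i = i0
      · rw [if_pos hi] at g0 g1
        have c1 : (2 : ℝ) ^ a * |pco lam i0 (z ω) (F.x ω) i - pco lam i0 (z ω) (F.x ω') i| ≤
            1 := by
          calc _ ≤ (2 : ℝ) ^ a * (1 / 2 ^ J) := mul_le_mul_of_nonneg_left g0 (by positivity)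
            _ = 2 ^ a / 2 ^ J := by ring
            _ ≤ 1 := pow_div_le (by omega)
        have c2 : (2 : ℝ) ^ a * (|τ| * |pco lam i0 (z ω) (F.d ω) i -
            pco lam i0 (z ω) (F.d ω') i|) ≤ 1 := by
          calc _ ≤ (2 : ℝ) ^ a * (1 / 2 ^ g * (1 / 2 ^ q)) := mul_le_mul_of_nonneg_left
                (mul_le_mul hτ1 g1 (abs_nonneg _) (by positivity)) (by positivity)
            _ = 2 ^ a / 2 ^ (q + g) := by rw [pow_add]; field_simp
            _ ≤ 1 := pow_div_le h2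
        linarith
      · rw [if_neg hi] at g0 g1
        have c1 : (2 : ℝ) ^ a * |pco lam i0 (z ω) (F.x ω) i - pco lam i0 (z ω) (F.x ω') i| ≤
            1 + C := by
          calc _ ≤ (2 : ℝ) ^ a * (2 ^ lam * ((1 + C) / 2 ^ J)) :=
                mul_le_mul_of_nonneg_left g0 (by positivity)
            _ = (1 + C) * (2 ^ (a + lam) / 2 ^ J) := by rw [pow_add]; ring
            _ ≤ (1 + C) * 1 := mul_le_mul_of_nonneg_left (pow_div_le h1) (by linarith)
            _ = 1 + C := by ring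
        have c2 : (2 : ℝ) ^ a * (|τ| * |pco lam i0 (z ω) (F.d ω) i -
            pco lam i0 (z ω) (F.d ω') i|) ≤ 2 + C := by
          calc _ ≤ (2 : ℝ) ^ a * (1 / 2 ^ g * (2 ^ lam * (2 / 2 ^ h + C / 2 ^ l / 2 ^ q))) :=
                mul_le_mul_of_nonneg_left
                  (mul_le_mul hτ1 g1 (abs_nonneg _) (by positivity)) (by positivity)
            _ = 2 * (2 ^ (a + lam) / 2 ^ (g + h)) + C * (2 ^ (a + lam) / 2 ^ (g + q + l)) := by
              rw [pow_add 2 a, pow_add 2 g h, pow_add 2 (g + q), pow_add 2 g q]; field_simp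
            _ ≤ 2 * 1 + C * 1 := add_le_add
              (mul_le_mul_of_nonneg_left (pow_div_le h3) (by norm_num))
              (mul_le_mul_of_nonneg_left (pow_div_le h4) hC)
            _ = 2 + C := by ring
        linarith
    have k3 := Plk.floor_sub_lt k2
    have k4 : |((F.gps g a lam i0 z ω i - F.gps g a lam i0 z ω' i : ℤ) : ℝ)| ≤
        2 * C + 3 + 1 := by
      unfold Fam.gps
      rw [← b4]
      exact k3
    linarith
  have k3 : CH p (F.glb g a c lam i0 z) W ≤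
      CH p (fun ω => (F.gps g a lam i0 z ω, F.gvl c lam i0 z ω)) W := by
    have d1 := CH_le_add h0 (F.glb g a c lam i0 z) (fun ω => (F.gps g a lam i0 z ω,
      F.gvl c lam i0 z ω)) W
    have d2 : CH p (F.glb g a c lam i0 z) (fun ω => ((F.gps g a lam i0 z ω,
        F.gvl c lam i0 z ω), W ω)) = 0 := by
      refine CH_eq_zero h0 ?_
      intro ω ω' hω hω' hh
      have e1 := Prod.ext_iff.mp hh
      have e2 := Prod.ext_iff.mp e1.1
      obtain ⟨b1, b2, b3, b4, b5, b6⟩ := hW ω ω' hω hω' e1.2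
      have f1 : F.gps g a lam i0 z ω = F.gps g a lam i0 z ω' := e2.1
      have f2 : F.gvl c lam i0 z ω = F.gvl c lam i0 z ω' := e2.2
      have bT : F.T ω = F.T ω' := (Prod.ext_iff.mp b2).1
      have bZ : F.Z ω = F.Z ω' := (Prod.ext_iff.mp b2).2
      rw [glb_eq, glb_eq, T1_of_T bT, b4, f1, f2, bZ]
    linarith
  have k4 := CH_subadd h0 (F.gps g a lam i0 z) (F.gvl c lam i0 z) W
  linarith

end pts

/-! ### Times and lines in the box -/

/-- The line in the box together with the label is the line with its window. -/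
theorem CH_line {F : Fam m J} {p : F.Ω → ℝ} {S : Type} (hp : IsLaw p) {g a c lam : ℕ}
    {i0 : Fin m} {z : F.Ω → Fin m → ℝ}
    (hz : ∀ ω ω', 0 < p ω → 0 < p ω' → Pool.KSAT.slam F g ω = Pool.KSAT.slam F g ω' →
      z ω = z ω') (X : F.Ω → S) :
    CH p X (fun ω => (F.glb g a c lam i0 z ω, (F.gu g a lam i0 z ω, F.gd c lam i0 z ω))) =
      CH p X (Pool.KSAT.slam F g) := by
  refine CH_congr hp.nonneg (fun _ _ _ _ h => (Prod.ext_iff.mp h).1)
    (fun _ _ _ _ h => (Prod.ext_iff.mp h).1) ?_ ?_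
  · intro ω ω' _ _ h
    have h1 := Prod.ext_iff.mp h
    have h2 := Prod.ext_iff.mp h1.2
    obtain ⟨b1, b2, b3, b4⟩ := line_det F h1.1 h2.1 h2.2
    exact Prod.ext b1 (Prod.ext b4 b2)
  · intro ω ω' hω hω' h
    have hz' := hz ω ω' hω hω' h
    have h1 : F.l ω = F.l ω' := (Prod.ext_iff.mp h).1
    have h2 := Prod.ext_iff.mp (Prod.ext_iff.mp h).2
    have h3 : F.Z ω = F.Z ω' := h2.1
    have h4 : F.T1 g ω = F.T1 g ω' := h2.2
    obtain ⟨b1, b2, b3⟩ := glb_det F (a := a) (c := c) (lam := lam) (i0 := i0) h1 h4 hz' h3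
    exact Prod.ext b1 (Prod.ext b2 b3)

/-! ### Frames from the thresholds -/

/-- A frame of precision `l'` which is a function of the line and the window. -/
theorem cn_frame {F : Fam m J} {i₀ : Fin m} {A : F.Ω → Prop} {l l' h s w : ℕ}
    {e n : ((Fin m → ℤ) × (ℕ × F.ζ)) → Fin m → ℝ} (hc : Pool.K2S.Cn F i₀ l w A)
    (he : Pool.K2S.OnL i₀ (1 / 2 ^ h) (Pool.K2S.Fam.pt F) F.d A e n)
    (hs : Pool.K2S.SpreadI i₀ (1 / 2 ^ s) (Pool.K2S.Fam.pt F) F.d A) (hlh : l ≤ h)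
    (hl : l' + s + 3 ≤ l) :
    ∃ ζ : (((Fin m → ℝ) × (Fin m → ℝ)) × F.ζ × ℕ) → Fin m → ℝ, ∀ ω, A ω → ∀ j,
      2 ^ l' * |e (Pool.K2S.Fam.pt F ω) j - ζ (Pool.KSAT.slam F w ω) j| ≤ 1 := by
  obtain ⟨ζ, hζ⟩ := Pool.K2S.RotU.frame hc he hs (by positivity)
  refine ⟨ζ, fun ω hω j => ?_⟩
  have h1 := hζ ω hω j
  have h2 : (1 : ℝ) / 2 ^ l + (2 * (1 / 2 ^ l) + 2 * (1 / 2 ^ h)) / (1 / 2 ^ s) ≤
      1 / 2 ^ l' := by
    have e1 : (1 : ℝ) / 2 ^ h ≤ 1 / 2 ^ l :=
      one_div_le_one_div_of_le (by positivity) (pow_le_pow_right₀ (by norm_num) hlh)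
    have e2 : (1 : ℝ) / 2 ^ l ≤ 2 ^ s * (1 / 2 ^ l) := by
      have : (1 : ℝ) ≤ 2 ^ s := one_le_pow₀ (by norm_num)
      have h3 : (0 : ℝ) < 1 / 2 ^ l := by positivity
      nlinarith
    have e3 : (2 * (1 / 2 ^ l) + 2 * (1 / 2 ^ h)) / (1 / 2 ^ s) =
        2 ^ s * (2 * (1 / 2 ^ l) + 2 * (1 / 2 ^ h) : ℝ) := by
      field_simp
    have e4 : (2 : ℝ) ^ s * (8 * (1 / 2 ^ l)) ≤ 1 / 2 ^ l' := by
      have e5 : (2 : ℝ) ^ s * (8 * (1 / 2 ^ l)) = 2 ^ (s + 3) / 2 ^ l := by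
        rw [pow_add]
        ring
      rw [e5, div_le_div_iff₀ (by positivity) (by positivity), one_mul, ← pow_add]
      exact pow_le_pow_right₀ (by norm_num) (by omega)
    rw [e3]
    have e6 : (2 : ℝ) ^ s * (2 * (1 / 2 ^ l) + 2 * (1 / 2 ^ h)) ≤
        2 ^ s * (4 * (1 / 2 ^ l)) := mul_le_mul_of_nonneg_left (by linarith) (by positivity)
    have e8 : (2 : ℝ) ^ s * (8 * (1 / 2 ^ l)) = 8 * (2 ^ s * (1 / 2 ^ l)) := by ring
    have e9 : (2 : ℝ) ^ s * (4 * (1 / 2 ^ l)) = 4 * (2 ^ s * (1 / 2 ^ l)) := by ring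
    have e10 : (0 : ℝ) ≤ 2 ^ s * (1 / 2 ^ l) := by positivity
    rw [e8] at e4
    rw [e9] at e6
    linarith
  have h3 : |e (Pool.K2S.Fam.pt F ω) j - ζ (Pool.KSAT.slam F w ω) j| ≤ 1 / 2 ^ l' :=
    h1.trans h2
  calc (2 : ℝ) ^ l' * |e (Pool.K2S.Fam.pt F ω) j - ζ (Pool.KSAT.slam F w ω) j| ≤
      2 ^ l' * (1 / 2 ^ l') := mul_le_mul_of_nonneg_left h3 (by positivity)
    _ = 1 := by field_simp

end Lab

end Pool.KA
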